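import Pool.Agent.Q76.TB.Final

/-!
# MP_88887c_co: the conjecture `M*(t) = t - 1` on tree bootstrap percolation is false

The definitions (`step`, `proc`, `runTime`, `maxRunTime`, `MStar`) are in
`Pool.Agent.Q76.TB.Defs`; `SimpleGraph.copyCount G H` is Mathlib's number of subgraphs of `G`
isomorphic to `H`.

* `step H G` is one round of the `H`-process (all non-edges `uv` with
  `n_H(G + uv) > n_H(G)` are added), `proc H G i` is `G_i`;
* `runTime H G = min {s | G_s = G_{s+1}}`;
* `maxRunTime H n = M_H(n)`, the maximum of `runTime H G` over all graphs `G` on `Fin n`;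
* `MStar t = M*(t)`, the supremum over all trees `T` on `Fin t` of `limsup_n M_T(n)`, in `ℕ∞`.

Main idea.  Give every vertex of a forest `F` on `k` vertices three pendant leaves and connect
everything by one vertex.  For this tree `T` and a host graph in which `k` hubs are joined to all
other vertices, the `T`-process only changes the graph on the hubs, where it is the process of
*spanning* copies of `F`.  Private leaves of `F` (in different odd numbers) act as colours, and a
coloured forest on `O(m + s²)` vertices has a spanning process in which each of `m` items needs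
`s + 1` rounds, one item after the other.
-/

namespace Pool.Agent.Results.MP_88887c_co.SuperlinearRunningTime

open Pool.Agent.Q76.TB

/-- The conjecture `M*(t) = t - 1` for all `t ≥ 1` fails. More precisely, for every `s ≥ 1` there
is a tree on `t = 20 s² + 44 s + 105` vertices whose maximum running time `M_T(n)` is at least
`s³ + s²` for all `n ≥ t`. -/
theorem result :
    (¬ ∀ t : ℕ, 1 ≤ t → MStar t = ((t - 1 : ℕ) : ℕ∞)) ∧
    (∀ s : ℕ, 1 ≤ s → ∃ T : SimpleGraph (Fin (20 * s ^ 2 + 44 * s + 105)), T.IsTree ∧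
      ∀ n, 20 * s ^ 2 + 44 * s + 105 ≤ n → s ^ 3 + s ^ 2 ≤ maxRunTime T n) := by
  have h2 : ∀ s : ℕ, 1 ≤ s → ∃ T : SimpleGraph (Fin (20 * s ^ 2 + 44 * s + 105)), T.IsTree ∧
      ∀ n, 20 * s ^ 2 + 44 * s + 105 ≤ n → s ^ 3 + s ^ 2 ≤ maxRunTime T n := by
    intro s hs
    have key : ∀ t, 16 * s ^ 2 + 4 * s ^ 2 + 44 * s + 105 = t →
        ∃ T : SimpleGraph (Fin t), T.IsTree ∧ ∀ n, t ≤ n → s ^ 3 + s ^ 2 ≤ maxRunTime T n := by
      rintro t rfl
      obtain ⟨T, hT, h⟩ := exists_slow_tree s (s ^ 2) hs (by positivity)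
      refine ⟨T, hT, fun n hn => ?_⟩
      have := h n hn
      calc s ^ 3 + s ^ 2 = s ^ 2 * (s + 1) := by ring
        _ ≤ _ := this
    exact key _ (by ring)
  refine ⟨fun hconj => ?_, h2⟩
  obtain ⟨T, hT, h⟩ := h2 22 (by norm_num)
  have h3 := le_MStar _ _ T hT h
  rw [hconj _ (by norm_num)] at h3
  have h4 : 22 ^ 3 + 22 ^ 2 ≤ 20 * 22 ^ 2 + 44 * 22 + 105 - 1 := by exact_mod_cast h3
  norm_num at h4

end Pool.Agent.Results.MP_88887c_co.SuperlinearRunningTime
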